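import Pool.Agent.L0h94.SL.Defs
import Pool.Agent.L0h93.RZ.Eq

/-!
# SL-EQM: primes with at most `M` prescribed symbols
-/

set_option autoImplicit false

namespace Pool.Agent.L0h66.SL

open Finset Pool.Agent.W262.RK Pool.Agent.L0h94.RZ Pool.Agent.L0h94.SL Pool.Agent.L0h93.RZ

/-- the sign -/
noncomputable def sgn2 (x : ZMod 2) : ℝ := if x = 1 then -1 else 1

lemma sgn2_add (x y : ZMod 2) : sgn2 (x + y) = sgn2 x * sgn2 y := by
  unfold sgn2
  have h3 : ∀ a b : ZMod 2, (a = 1 ∧ b = 1 ∧ a + b ≠ 1) ∨ (a = 1 ∧ b ≠ 1 ∧ a + b = 1) ∨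
      (a ≠ 1 ∧ b = 1 ∧ a + b = 1) ∨ (a ≠ 1 ∧ b ≠ 1 ∧ a + b ≠ 1) := by decide
  rcases h3 x y with ⟨h4, h5, h6⟩ | ⟨h4, h5, h6⟩ | ⟨h4, h5, h6⟩ | ⟨h4, h5, h6⟩
  · rw [if_pos h4, if_pos h5, if_neg h6]
    norm_num
  · rw [if_pos h4, if_neg h5, if_pos h6]
    norm_num
  · rw [if_neg h4, if_pos h5, if_pos h6]
    norm_num
  · rw [if_neg h4, if_neg h5, if_neg h6]
    norm_num

lemma sgn2_zero : sgn2 0 = 1 := by
  unfold sgn2
  rw [if_neg (by decide)]

lemma sgn2_sum {ι : Type*} (s : Finset ι) (g : ι → ZMod 2) :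
    sgn2 (∑ i ∈ s, g i) = ∏ i ∈ s, sgn2 (g i) := by
  classical
  induction s using Finset.induction_on with
  | empty => simp [sgn2_zero]
  | insert i s hi ih => rw [sum_insert hi, prod_insert hi, sgn2_add, ih]

lemma sgn2_abs (x : ZMod 2) : |sgn2 x| = 1 := by
  unfold sgn2
  split_ifs <;> norm_num

/-- the indicator of one condition -/
lemma sgn2_ind (x y : ZMod 2) : (1 + sgn2 (x + y)) / 2 = if x = y then (1 : ℝ) else 0 := by
  have h3 : ∀ a b : ZMod 2, (a = b ∧ a + b ≠ 1) ∨ (a ≠ b ∧ a + b = 1) := by decide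
  unfold sgn2
  rcases h3 x y with ⟨h4, h5⟩ | ⟨h4, h5⟩
  · rw [if_neg h5, if_pos h4]
    norm_num
  · rw [if_pos h5, if_neg h4]
    norm_num

/-- the elements of `S` that are contained in an odd number of sets of `U` -/
noncomputable def oddS (S : Finset ℕ) (U : Finset (Finset ℕ)) : Finset ℕ :=
  S.filter (fun p => Odd (U.filter (fun T => p ∈ T)).card)

lemma oddS_sub (S : Finset ℕ) (U : Finset (Finset ℕ)) : oddS S U ⊆ S := filter_subset _ _

lemma sum_oddS {S : Finset ℕ} {U : Finset (Finset ℕ)} (hU : ∀ T ∈ U, T ⊆ S) (g : ℕ → ZMod 2) :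
    ∑ T ∈ U, ∑ p ∈ T, g p = ∑ p ∈ oddS S U, g p := by
  have h1 : ∀ T ∈ U, ∑ p ∈ T, g p = ∑ p ∈ S, if p ∈ T then g p else 0 := by
    intro T hT
    rw [← sum_filter]
    congr 1
    ext p
    rw [mem_filter]
    exact ⟨fun h => ⟨hU T hT h, h⟩, fun h => h.2⟩
  rw [sum_congr rfl h1, sum_comm]
  unfold oddS
  rw [sum_filter]
  refine sum_congr rfl fun p _ => ?_
  rw [← sum_filter, sum_const, nsmul_eq_mul]
  split_ifs with h
  · rw [show (((U.filter (fun T => p ∈ T)).card : ℕ) : ZMod 2) = 1 from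
      (ZMod.natCast_eq_one_iff_odd).2 h, one_mul]
  · rw [show (((U.filter (fun T => p ∈ T)).card : ℕ) : ZMod 2) = 0 from
      (ZMod.natCast_eq_zero_iff_even).2 (Nat.not_odd_iff_even.1 h), zero_mul]

theorem eqm_of (hL : S_EQL2) (hW : S_EQW2) : S_EQM := by
  intro M
  have h2M : (0 : ℝ) < 2 ^ M := by positivity
  set θ : ℝ := 1 / (24 * 2 ^ M) with hθ
  have hθ0 : 0 < θ := by positivity
  refine ⟨1 / (24 * 2 ^ M), by positivity, fun η hη0 hη1 A => ?_⟩
  obtain ⟨X1, hX1⟩ := hL η θ hη0 hη1 hθ0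
  obtain ⟨X2, hX2⟩ := hW η θ hη0 hη1 hθ0 A
  refine ⟨max 1 (max X1 X2), fun X hX => ?_⟩
  have hXa : 1 ≤ X := le_trans (le_max_left _ _) hX
  have hXb : X1 ≤ X := le_trans (le_trans (le_max_left _ _) (le_max_right _ _)) hX
  have hXc : X2 ≤ X := le_trans (le_trans (le_max_right _ _) (le_max_right _ _)) hX
  obtain ⟨hmass, hsw⟩ := hX2 X hXc
  have hX1' : (1 : ℝ) ≤ X := by exact_mod_cast hXa
  have hX0 : (0 : ℝ) < X := by linarith
  classical
  set D : Finset ℕ := (Icc 1 ⌊(X : ℝ) ^ (η / 4)⌋₊).filter (fun d => 1 < d ∧ Squarefree d ∧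
    d.Coprime 6 ∧ θ < |∑ l ∈ rg X η, Jr l d / (l : ℝ)|) with hD
  have hDm : ∀ d, d ∈ D ↔ (d : ℝ) ≤ (X : ℝ) ^ (η / 4) ∧ 1 < d ∧ Squarefree d ∧
      d.Coprime 6 ∧ θ < |∑ l ∈ rg X η, Jr l d / (l : ℝ)| := by
    intro d
    rw [hD, mem_filter, mem_Icc]
    constructor
    · rintro ⟨⟨-, h1⟩, h2⟩
      exact ⟨(Nat.le_floor_iff (by positivity)).1 h1, h2⟩
    · rintro ⟨h1, h2⟩
      exact ⟨⟨h2.1.le, (Nat.le_floor_iff (by positivity)).2 h1⟩, h2⟩
  refine ⟨D, fun e he => ?_, ?_, ?_⟩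
  · obtain ⟨h1, h2, h3, h4, h5⟩ := (hDm e).1 he
    by_contra h6
    have := hsw e h2 h3 h4 (not_lt.1 h6)
    linarith
  · refine hX1 X hXb D fun d hd => ?_
    obtain ⟨h1, h2, h3, h4, h5⟩ := (hDm d).1 hd
    refine ⟨?_, h3, h1, h5⟩
    have h6 : d.Coprime 2 := Nat.Coprime.coprime_dvd_right (by norm_num) h4
    exact Nat.coprime_two_right.1 h6
  · intro S hS hSX hcln TT f hM hTT
    have hSp : ∀ p ∈ S, p.Prime := fun p hp => (hS p hp).1
    -- the primes of the range do not divide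
    have hndvd : ∀ l ∈ rg X η, ∀ p ∈ S, ¬ (p : ℤ) ∣ (l : ℤ) := by
      intro l hl p hp hd
      unfold rg at hl
      rw [mem_filter, mem_Ioc] at hl
      have h1 : p ∣ l := Int.natCast_dvd_natCast.1 hd
      have h2 : p = l := (Nat.prime_dvd_prime_iff_eq (hSp p hp) hl.2.1).1 h1
      have h3 : (X : ℝ) ^ η < l := Nat.lt_of_floor_lt hl.1.1
      have h4 : p ≤ ∏ q ∈ S, q := Nat.le_of_dvd (prod_pos fun q hq => (hSp q hq).pos)
        (dvd_prod_of_mem _ hp)
      have h5 : (p : ℝ) ≤ (X : ℝ) ^ (η / 4) :=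
        le_trans (by exact_mod_cast h4) hSX
      have h6 : (X : ℝ) ^ (η / 4) ≤ (X : ℝ) ^ η :=
        Real.rpow_le_rpow_of_exponent_le hX1' (by linarith)
      rw [h2] at h5
      linarith
    -- the sum of the symbols for a nonempty subset
    have hsmall : ∀ U : Finset ℕ, U ⊆ S → U.Nonempty →
        |∑ l ∈ rg X η, Jr l (∏ p ∈ U, p) / (l : ℝ)| ≤ θ := by
      intro U hU hU0
      by_contra h1
      rw [not_le] at h1
      have hdv : ∏ p ∈ U, p ∣ ∏ p ∈ S, p := prod_dvd_prod_of_subset _ _ _ hU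
      have hpos : 0 < ∏ p ∈ S, p := prod_pos fun q hq => (hSp q hq).pos
      refine hcln (∏ p ∈ U, p) ((hDm _).2 ⟨?_, ?_, ?_, ?_, h1⟩) hdv
      · refine le_trans ?_ hSX
        exact_mod_cast Nat.le_of_dvd hpos hdv
      · obtain ⟨p, hp⟩ := hU0
        have h2 : p ∣ ∏ q ∈ U, q := dvd_prod_of_mem _ hp
        have h3 : 0 < ∏ q ∈ U, q := prod_pos fun q hq => (hSp q (hU hq)).pos
        exact lt_of_lt_of_le (hSp p (hU hp)).one_lt (Nat.le_of_dvd h3 h2)
      · refine Finset.squarefree_prod_of_pairwise_isCoprime ?_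
          (fun p hp => (hSp p (hU hp)).squarefree)
        intro p hp q hq hpq
        exact Nat.coprime_iff_isRelPrime.1
          ((Nat.coprime_primes (hSp p (hU hp)) (hSp q (hU hq))).2 hpq)
      · refine Nat.Coprime.prod_left fun p hp => ?_
        have h2 := (hS p (hU hp)).2
        have h3 : p.Coprime 2 := (Nat.coprime_primes (hSp p (hU hp)) Nat.prime_two).2 (by omega)
        have h4 : p.Coprime 3 := (Nat.coprime_primes (hSp p (hU hp)) Nat.prime_three).2 (by omega)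
        exact Nat.Coprime.mul_right h3 h4
    have hJ : ∀ U : Finset ℕ, U ⊆ S → ∀ l ∈ rg X η,
        Jr l (∏ p ∈ U, p) = sgn2 (∑ p ∈ U, nr p (l : ℤ)) := fun U hU l hl =>
      Jr_prod U (fun p hp => hSp p (hU hp)) l (fun p hp => hndvd l hl p (hU hp))
    -- the sign of a condition
    set a : Finset ℕ → ℕ → ℝ := fun T l => sgn2 (∑ p ∈ T, nr p (l : ℤ) + ∑ p ∈ T, f p) with ha
    have hind : ∀ l : ℕ, (if ∀ T ∈ TT, ∑ p ∈ T, nr p (l : ℤ) = ∑ p ∈ T, f p then (1 : ℝ) else 0) =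
        (1 / 2) ^ TT.card * ∑ U ∈ TT.powerset, ∏ T ∈ U, a T l := by
      intro l
      rw [← Finset.prod_one_add]
      rw [← prod_const, ← prod_mul_distrib]
      have h1 : ∀ T ∈ TT, 1 / 2 * (1 + a T l) =
          if ∑ p ∈ T, nr p (l : ℤ) = ∑ p ∈ T, f p then (1 : ℝ) else 0 := by
        intro T _
        rw [← sgn2_ind]
        ring
      rw [prod_congr rfl h1]
      by_cases h : ∀ T ∈ TT, ∑ p ∈ T, nr p (l : ℤ) = ∑ p ∈ T, f p
      · rw [if_pos h]
        symm
        exact prod_eq_one fun T hT => if_pos (h T hT)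
      · rw [if_neg h]
        push Not at h
        obtain ⟨T, hT, hne⟩ := h
        symm
        exact prod_eq_zero hT (if_neg hne)
    -- the product of the signs
    have hprod : ∀ U ∈ TT.powerset, ∀ l ∈ rg X η, ∏ T ∈ U, a T l =
        sgn2 (∑ p ∈ oddS S U, f p) * Jr l (∏ p ∈ oddS S U, p) := by
      intro U hU l hl
      rw [mem_powerset] at hU
      have hUS : ∀ T ∈ U, T ⊆ S := fun T hT => hTT T (hU hT)
      rw [hJ _ (oddS_sub S U) l hl, mul_comm, ← sgn2_add, ← sum_add_distrib, ← sum_oddS hUS,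
        sgn2_sum]
      refine prod_congr rfl fun T _ => ?_
      rw [ha]
      simp only
      rw [sum_add_distrib]
    -- lower bounds of the terms
    set F : Finset (Finset ℕ) → ℝ := fun U => ∑ l ∈ rg X η, (∏ T ∈ U, a T l) * (1 / (l : ℝ))
      with hF
    have hF0 : 1 / 12 ≤ F ∅ := by
      rw [hF]
      simp only [prod_empty, one_mul]
      exact hmass
    have hFU : ∀ U ∈ TT.powerset, -θ ≤ F U := by
      intro U hU
      have h1 : F U = sgn2 (∑ p ∈ oddS S U, f p) *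
          ∑ l ∈ rg X η, Jr l (∏ p ∈ oddS S U, p) / (l : ℝ) := by
        rw [hF]
        simp only
        rw [mul_sum]
        refine sum_congr rfl fun l hl => ?_
        rw [hprod U hU l hl]
        ring
      rcases (oddS S U).eq_empty_or_nonempty with h2 | h2
      · have h3 : F U = ∑ l ∈ rg X η, 1 / (l : ℝ) := by
          rw [hF]
          simp only
          refine sum_congr rfl fun l hl => ?_
          rw [hprod U hU l hl, hJ _ (oddS_sub S U) l hl, h2, sum_empty, sum_empty, sgn2_zero]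
          ring
        rw [h3]
        linarith
      · have h3 := hsmall _ (oddS_sub S U) h2
        have h4 : |F U| ≤ θ := by
          rw [h1, abs_mul, sgn2_abs, one_mul]
          exact h3
        exact (abs_le.1 h4).1
    -- the sum
    have hsum : ∑ l ∈ (rg X η).filter
        (fun l : ℕ => ∀ T ∈ TT, ∑ p ∈ T, nr p (l : ℤ) = ∑ p ∈ T, f p), 1 / (l : ℝ) =
        (1 / 2) ^ TT.card * ∑ U ∈ TT.powerset, F U := by
      rw [sum_filter]
      have h1 : ∀ l ∈ rg X η, (if ∀ T ∈ TT, ∑ p ∈ T, nr p (l : ℤ) = ∑ p ∈ T, f p then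
          1 / (l : ℝ) else 0) = (1 / 2) ^ TT.card *
            ∑ U ∈ TT.powerset, (∏ T ∈ U, a T l) * (1 / (l : ℝ)) := by
        intro l _
        rw [← sum_mul, ← mul_assoc, ← hind l]
        split_ifs <;> ring
      rw [sum_congr rfl h1, ← mul_sum, sum_comm]
    rw [hsum]
    have h1 : ∑ U ∈ TT.powerset, F U = F ∅ + ∑ U ∈ TT.powerset.erase ∅, F U :=
      (add_sum_erase _ _ (empty_mem_powerset _)).symm
    have h2 : -(((TT.powerset.erase ∅).card : ℝ) * θ) ≤ ∑ U ∈ TT.powerset.erase ∅, F U := by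
      have h3 : ∑ U ∈ TT.powerset.erase ∅, (-θ) ≤ ∑ U ∈ TT.powerset.erase ∅, F U :=
        sum_le_sum fun U hU => hFU U (mem_of_mem_erase hU)
      rw [sum_const, nsmul_eq_mul] at h3
      linarith
    have h3 : ((TT.powerset.erase ∅).card : ℝ) ≤ 2 ^ M := by
      have h4 : (TT.powerset.erase ∅).card ≤ 2 ^ M := by
        refine le_trans (card_le_card (erase_subset _ _)) ?_
        rw [card_powerset]
        exact Nat.pow_le_pow_right (by norm_num) hM
      exact_mod_cast h4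
    have h4 : 1 / 24 ≤ ∑ U ∈ TT.powerset, F U := by
      have h5 : ((TT.powerset.erase ∅).card : ℝ) * θ ≤ 1 / 24 := by
        calc ((TT.powerset.erase ∅).card : ℝ) * θ ≤ 2 ^ M * θ :=
              mul_le_mul_of_nonneg_right h3 hθ0.le
          _ = 1 / 24 := by rw [hθ]; field_simp
      linarith
    calc (1 : ℝ) / (24 * 2 ^ M) = (1 / 2) ^ M * (1 / 24) := by
          rw [div_pow, one_pow]; field_simp
      _ ≤ (1 / 2) ^ TT.card * (1 / 24) := by
          apply mul_le_mul_of_nonneg_right _ (by norm_num)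
          exact pow_le_pow_of_le_one (by norm_num) (by norm_num) hM
      _ ≤ (1 / 2) ^ TT.card * ∑ U ∈ TT.powerset, F U :=
          mul_le_mul_of_nonneg_left h4 (by positivity)

end Pool.Agent.L0h66.SL
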