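import Pool.Agent.L0h94.SL.Defs
import Pool.Agent.L0h53.RZ.Ker

/-!
# SL-KERS: every vector of the kernel comes from square classes with all local conditions
-/

set_option autoImplicit false

namespace Pool.Agent.L0h66.SL

open Finset Pool.Agent.L0h94.RZ Pool.Agent.L0h94.SL Pool.Agent.L0h53.RZ

section prodE

variable {S : Finset ℕ} {cl : ℕ → Fin 3} {v : ℕ → ZMod 2}

/-- the product of the primes with `v = 1` outside the class `c` -/
noncomputable def pE (S : Finset ℕ) (cl : ℕ → Fin 3) (v : ℕ → ZMod 2) (c : Fin 3) : ℕ :=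
  ∏ q ∈ S.filter (fun q => cl q ≠ c ∧ v q = 1), q

theorem pE_sq (hP : ∀ q ∈ S, q.Prime) (c : Fin 3) : Squarefree (pE S cl v c) := by
  unfold pE
  refine Finset.squarefree_prod_of_pairwise_isCoprime ?_
    (fun p hp => (hP p (mem_filter.1 hp).1).squarefree)
  intro p hp q hq hpq
  exact Nat.coprime_iff_isRelPrime.1
    ((Nat.coprime_primes (hP p (mem_filter.1 hp).1) (hP q (mem_filter.1 hq).1)).2 hpq)

theorem pE_odd (hP : ∀ q ∈ S, q % 2 = 1) (c : Fin 3) : pE S cl v c % 2 = 1 := by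
  unfold pE
  exact (l4_prod _ (fun q => q) fun q hq => hP q (mem_filter.1 hq).1).2

theorem pE_dvd (hP : ∀ q ∈ S, q.Prime) (c : Fin 3) {q : ℕ} (hq : q.Prime) :
    q ∣ pE S cl v c ↔ q ∈ S ∧ cl q ≠ c ∧ v q = 1 := by
  unfold pE
  rw [Prime.dvd_finsetProd_iff hq.prime]
  constructor
  · rintro ⟨r, hr, hd⟩
    rw [mem_filter] at hr
    have := (Nat.prime_dvd_prime_iff_eq hq (hP r hr.1)).1 hd
    subst this
    exact hr
  · intro h
    exact ⟨q, mem_filter.2 h, dvd_rfl⟩

end prodE

theorem eq_of_add {x y : ZMod 2} (h : x + y = 0) : x = y := by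
  revert x y; decide

theorem kers : S_KERS := by
  intro o u b w h v hv
  obtain ⟨hv0, hrow⟩ := hv
  have hP : ∀ q ∈ (u * b * w).primeFactors, q.Prime := fun q hq =>
    Nat.prime_of_mem_primeFactors hq
  have hP2 : ∀ q ∈ (u * b * w).primeFactors, q % 2 = 1 := fun q hq => (cls h hq).2.1
  have h0 := (gd_sq h).2.2.2.2.2.2
  set E : Fin 3 → ℕ := pE (u * b * w).primeFactors (clf u b) v with hE
  have hEsq : ∀ c, Squarefree (E c) := fun c => pE_sq hP c
  have hEodd : ∀ c, E c % 2 = 1 := fun c => pE_odd hP2 c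
  have hEd : ∀ c (q : ℕ), q.Prime → (q ∣ E c ↔ q ∈ (u * b * w).primeFactors ∧ clf u b q ≠ c ∧
      v q = 1) := fun c q hq => pE_dvd hP c hq
  obtain ⟨ε, hε, hε4⟩ : ∃ ε : ℤ, (ε = 1 ∨ ε = -1) ∧ (ε * (E (cM o) : ℤ)) % 4 = 1 := by
    have h1 := hEodd (cM o)
    have h2 : E (cM o) % 4 = 1 ∨ E (cM o) % 4 = 3 := by omega
    rcases h2 with h2 | h2
    · exact ⟨1, Or.inl rfl, by omega⟩
    · exact ⟨-1, Or.inr rfl, by omega⟩
  have hεu : IsUnit ε := by
    rcases hε with h1 | h1 <;> rw [h1] <;> decide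
  have hsq : ∀ c, Squarefree (ε * (E c : ℤ)) := by
    intro c
    rcases hε with h1 | h1
    · rw [h1, one_mul]
      exact Int.squarefree_natCast.2 (hEsq c)
    · rw [h1, neg_one_mul, ← Int.squarefree_natAbs, Int.natAbs_neg, Int.natAbs_natCast]
      exact hEsq c
  have hodd : ∀ c, Odd (ε * (E c : ℤ)) := by
    intro c
    have h1 := hEodd c
    rw [Int.odd_iff]
    rcases hε with h2 | h2 <;> rw [h2] <;> omega
  have hpos : ∀ c, 0 < E c := fun c => Nat.pos_of_ne_zero (hEsq c).ne_zero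
  have hdv : ∀ c (q : ℕ), q.Prime → ((q : ℤ) ∣ ε * (E c : ℤ) ↔
      q ∈ (u * b * w).primeFactors ∧ clf u b q ≠ c ∧ v q = 1) := by
    intro c q hq
    rw [← hEd c q hq, hεu.dvd_mul_left, Int.natCast_dvd_natCast]
  have hdv1 : ∀ c (q : ℕ), q.Prime → ((q : ℤ) ∣ (E c : ℤ) ↔
      q ∈ (u * b * w).primeFactors ∧ clf u b q ≠ c ∧ v q = 1) := by
    intro c q hq
    rw [← hEd c q hq, Int.natCast_dvd_natCast]
  set e1 : ℤ := (E (cN o) : ℤ) with he1
  set e2 : ℤ := ε * (E 1 : ℤ) with he2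
  set e3 : ℤ := ε * (E (cM o) : ℤ) with he3
  have t1 := hdv1 (cN o)
  have t2 := hdv 1
  have t3 := hdv (cM o)
  rw [← he1] at t1
  rw [← he2] at t2
  rw [← he3] at t3
  have q1 : Squarefree e1 := Int.squarefree_natCast.2 (hEsq _)
  have q2 : Squarefree e2 := hsq _
  have q3 : Squarefree e3 := hsq _
  have p1 : 0 < e1 := by
    rw [he1]; exact_mod_cast hpos _
  have p23 : 0 < e2 * e3 := by
    rw [he2, he3]
    have a1 : (0 : ℤ) < (E 1 : ℤ) := by exact_mod_cast hpos _
    have a2 : (0 : ℤ) < (E (cM o) : ℤ) := by exact_mod_cast hpos _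
    rcases hε with h1 | h1 <;> rw [h1] <;> nlinarith [mul_pos a1 a2]
  have hneg : (e2 < 0) ↔ (e3 < 0) := by
    constructor
    · intro h1
      rcases mul_pos_iff.mp p23 with h2 | h2 <;> omega
    · intro h1
      rcases mul_pos_iff.mp p23 with h2 | h2 <;> omega
  have hm4 := mod4 q3 hε4 t3 hP
  have hne : cM o ≠ 1 ∧ cM o ≠ cN o ∧ (1 : Fin 3) ≠ cN o := by
    cases o <;> decide
  have hv01 : ∀ x : ZMod 2, x = 0 ∨ x = 1 := by decide
  refine ⟨e1, e2, e3, ⟨q1, q2, q3, p1, p23, ?_, hodd _, hodd _, hε4, ?_, ?_, ?_, ?_⟩, ?_⟩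
  · rw [he1, Int.odd_iff]
    have := hEodd (cN o)
    omega
  · -- the primes outside
    intro p hp hp2 hnd
    have hnm : p ∉ (u * b * w).primeFactors := fun h1 => hnd (Nat.dvd_of_mem_primeFactors h1)
    exact ⟨fun h1 => hnm ((t1 p hp).1 h1).1, fun h1 => hnm ((t2 p hp).1 h1).1,
      fun h1 => hnm ((t3 p hp).1 h1).1⟩
  · -- type M
    intro p hpp hp2 hd
    have hpo : p % 2 = 1 := by
      rcases hpp.eq_two_or_odd with h1 | h1
      · exact absurd h1 hp2
      · exact h1
    have hp : p ∈ (u * b * w).primeFactors := by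
      rw [Nat.mem_primeFactors]
      refine ⟨hpp, ?_, h0⟩
      cases o
      · simp only [mo, Bool.false_eq_true, if_false] at hd
        rw [dvd_four hpp hpo] at hd
        exact hd.mul_left _
      · simp only [mo, if_true] at hd
        have : p ∣ u := by exact_mod_cast hd
        exact (this.mul_right _).mul_right _
    have hc : clf u b p = cM o := (dvd_m h o hp).1.1 hd
    obtain ⟨b1, b2⟩ := en_M h o hp hc
    have a1 : ¬ (p : ℤ) ∣ e3 := fun h1 => ((t3 p hpp).1 h1).2.1 hc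
    have a2 : (p : ℤ) ∣ e1 ↔ v p = 1 := by
      rw [t1 p hpp, hc]
      exact ⟨fun h1 => h1.2.2, fun h1 => ⟨hp, hne.2.1, h1⟩⟩
    have a3 : (p : ℤ) ∣ e2 ↔ v p = 1 := by
      rw [t2 p hpp, hc]
      exact ⟨fun h1 => h1.2.2, fun h1 => ⟨hp, hne.1, h1⟩⟩
    refine ⟨a1, by rw [a2, a3], ?_⟩
    have hex := expand q3 t3 hP hpp a1
    have hr := hrow p hp
    rw [row_lemma (g := fun q => if clf u b q ≠ cM o then nr p q + lam p * lam q else 0)
      (d := nr p (-(b : ℤ))) hp
      (by rw [b1]; simp [hc]) b2] at hr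
    have hr' := eq_of_add hr
    have hval : nr p e3 = nr p (-(b : ℤ)) * v p := by
      rw [← hr', hex, hm4, Finset.sum_mul, ← Finset.sum_add_distrib]
      refine Finset.sum_congr rfl fun q _ => ?_
      by_cases hq : clf u b q = cM o
      · simp [hq]
      · simp only [ne_eq, hq, not_false_eq_true, if_true]; ring
    rw [hval]
    rcases hv01 (v p) with h1 | h1
    · rw [if_neg (by rw [a2, h1]; decide), h1, mul_zero]
    · rw [if_pos (a2.2 h1), h1, mul_one]
  · -- class 1
    intro p hpp hp2 hd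
    have hpo : p % 2 = 1 := by
      rcases hpp.eq_two_or_odd with h1 | h1
      · exact absurd h1 hp2
      · exact h1
    have hp : p ∈ (u * b * w).primeFactors := by
      rw [Nat.mem_primeFactors]
      exact ⟨hpp, (hd.mul_left _).mul_right _, h0⟩
    have hc : clf u b p = 1 := (dvd_m h o hp).2.1.1 hd
    obtain ⟨b1, b2⟩ := en_1 h o hp hc
    have a1 : ¬ (p : ℤ) ∣ e2 := fun h1 => ((t2 p hpp).1 h1).2.1 hc
    have a2 : (p : ℤ) ∣ e1 ↔ v p = 1 := by
      rw [t1 p hpp, hc]
      exact ⟨fun h1 => h1.2.2, fun h1 => ⟨hp, hne.2.2, h1⟩⟩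
    have a3 : (p : ℤ) ∣ e3 ↔ v p = 1 := by
      rw [t3 p hpp, hc]
      exact ⟨fun h1 => h1.2.2, fun h1 => ⟨hp, hne.1.symm, h1⟩⟩
    refine ⟨a1, by rw [a2, a3], ?_⟩
    have hex := expand q2 t2 hP hpp a1
    have hr := hrow p hp
    rw [row_lemma (g := fun q => (if clf u b q ≠ 1 then nr p q else 0) +
      (if clf u b q ≠ cM o then lam p * lam q else 0)) (d := nr p (-(mo o u w))) hp
      (by rw [b1, hc]; simp [hne.1.symm, lam_sq, add_comm]) b2] at hr
    have hr' := eq_of_add hr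
    have hneg' : (if e2 < 0 then (1 : ZMod 2) else 0) = if e3 < 0 then 1 else 0 := by
      simp only [hneg]
    have hval : nr p e2 = nr p (-(mo o u w)) * v p := by
      rw [← hr', hex, hneg', hm4, Finset.sum_mul, ← Finset.sum_add_distrib]
      refine Finset.sum_congr rfl fun q _ => ?_
      by_cases hq : clf u b q = cM o
      · simp [hq]
      · simp only [ne_eq, hq, not_false_eq_true, if_true]; ring
    rw [hval]
    rcases hv01 (v p) with h1 | h1
    · rw [if_neg (by rw [a2, h1]; decide), h1, mul_zero]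
    · rw [if_pos (a2.2 h1), h1, mul_one]
  · -- type N
    intro p hpp hp2 hd
    have hpo : p % 2 = 1 := by
      rcases hpp.eq_two_or_odd with h1 | h1
      · exact absurd h1 hp2
      · exact h1
    have hp : p ∈ (u * b * w).primeFactors := by
      rw [Nat.mem_primeFactors]
      refine ⟨hpp, ?_, h0⟩
      cases o
      · simp only [mo, Bool.false_eq_true, if_false] at hd
        rw [show (b : ℤ) - 4 * (w : ℤ) = u by rw [h.hb]; push_cast; ring] at hd
        have : p ∣ u := by exact_mod_cast hd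
        exact (this.mul_right _).mul_right _
      · simp only [mo, if_true] at hd
        rw [show (b : ℤ) - (u : ℤ) = 4 * (w : ℤ) by rw [h.hb]; push_cast; ring,
          dvd_four hpp hpo] at hd
        exact hd.mul_left _
    have hc : clf u b p = cN o := (dvd_m h o hp).2.2.1 hd
    obtain ⟨b1, b2⟩ := en_N h o hp hc
    have a1 : ¬ (p : ℤ) ∣ e1 := fun h1 => ((t1 p hpp).1 h1).2.1 hc
    have a2 : (p : ℤ) ∣ e2 ↔ v p = 1 := by
      rw [t2 p hpp, hc]
      exact ⟨fun h1 => h1.2.2, fun h1 => ⟨hp, hne.2.2.symm, h1⟩⟩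
    have a3 : (p : ℤ) ∣ e3 ↔ v p = 1 := by
      rw [t3 p hpp, hc]
      exact ⟨fun h1 => h1.2.2, fun h1 => ⟨hp, hne.2.1.symm, h1⟩⟩
    refine ⟨a1, by rw [a2, a3], ?_⟩
    have hex := expand q1 t1 hP hpp a1
    have hr := hrow p hp
    rw [row_lemma (g := fun q => if clf u b q ≠ cN o then nr p q else 0)
      (d := nr p (mo o u w)) hp
      (by rw [b1]; simp [hc]) b2] at hr
    have hr' := eq_of_add hr
    have hval : nr p e1 = nr p (mo o u w) * v p := by
      rw [← hr', hex, if_neg (by omega), zero_mul, zero_add]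
    rw [hval]
    rcases hv01 (v p) with h1 | h1
    · rw [if_neg (by rw [a2, h1]; decide), h1, mul_zero]
    · rw [if_pos (a2.2 h1), h1, mul_one]
  · -- the vector
    funext q
    unfold vec
    by_cases hq : q ∈ (u * b * w).primeFactors
    · have hqp := hP q hq
      rcases hv01 (v q) with h1 | h1
      · rw [h1, if_neg]
        rintro ⟨-, h2 | h2⟩
        · have := ((t1 q hqp).1 h2).2.2
          rw [h1] at this
          exact absurd this (by decide)
        · have := ((t2 q hqp).1 h2).2.2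
          rw [h1] at this
          exact absurd this (by decide)
      · rw [h1, if_pos]
        refine ⟨hq, ?_⟩
        by_cases h2 : clf u b q = 1
        · left
          exact (t1 q hqp).2 ⟨hq, by rw [h2]; exact hne.2.2, h1⟩
        · right
          exact (t2 q hqp).2 ⟨hq, h2, h1⟩
    · rw [if_neg (fun h1 => hq h1.1), hv0 q hq]

end Pool.Agent.L0h66.SL
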